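import Mathlib

set_option autoImplicit false

namespace Pool.Agent.Results.MP_6800d9_co.Yes

lemma shelf {ι : Type} (a b : ι → ℝ) (ha : ∀ i, a i ≤ 1) (hb : ∀ i, 0 ≤ b i) (S : Finset ι) :
    ∀ x0 y0 H : ℝ, x0 ≤ 1 → 0 ≤ H → (∀ i ∈ S, b i ≤ H) →
      (1 - x0) * H + 2 * (1 - y0) ≤ ∑ i ∈ S, a i * b i →
      ∃ u v : ι → ℝ, ∀ x y : ℝ, 0 ≤ x → x ≤ 1 → y0 < y → y ≤ 1 → ¬ (x < x0 ∧ y ≤ y0 + H) →
        ∃ i ∈ S, u i ≤ x ∧ x ≤ u i + a i ∧ v i ≤ y ∧ y ≤ v i + b i := by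
  classical
  induction S using Finset.induction_on_max_value b with
  | empty =>
    intro x0 y0 H h1 h2 _ h4
    refine ⟨0, 0, fun x y _ _ g3 g4 _ => ?_⟩
    rw [Finset.sum_empty] at h4
    nlinarith
  | insert j S hj hmax ih =>
    intro x0 y0 H h1 h2 h3 h4
    rw [Finset.sum_insert hj] at h4
    have hbH := h3 j (Finset.mem_insert_self _ _)
    have key : ∀ u v : ι → ℝ, ∀ x y : ℝ,
        (∃ i ∈ S, u i ≤ x ∧ x ≤ u i + a i ∧ v i ≤ y ∧ y ≤ v i + b i) →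
        ∃ i ∈ insert j S, Function.update u j x0 i ≤ x ∧ x ≤ Function.update u j x0 i + a i ∧
          Function.update v j y0 i ≤ y ∧ y ≤ Function.update v j y0 i + b i := by
      rintro u v x y ⟨i, hi, g⟩
      have hne : i ≠ j := fun e => hj (e ▸ hi)
      exact ⟨i, Finset.mem_insert_of_mem hi, by simpa [Function.update_of_ne hne] using g⟩
    by_cases hc : x0 + a j < 1
    · obtain ⟨u, v, g⟩ := ih (x0 + a j) y0 (b j) hc.le (hb j) hmax (by nlinarith)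
      refine ⟨Function.update u j x0, Function.update v j y0, fun x y g1 g2 g3 g4 g5 => ?_⟩
      by_cases hd : x < x0 + a j ∧ y ≤ y0 + b j
      · refine ⟨j, Finset.mem_insert_self _ _, ?_⟩
        simp only [Function.update_self]
        exact ⟨not_lt.1 fun k => g5 ⟨k, by linarith [hd.2]⟩, hd.1.le, g3.le, hd.2⟩
      · exact key u v x y (g x y g1 g2 g3 g4 hd)
    · obtain ⟨u, v, g⟩ := ih 0 (y0 + b j) (b j) zero_le_one (hb j) hmax (by
        nlinarith [mul_le_mul_of_nonneg_right (ha j) (hb j), mul_nonneg (sub_nonneg.2 h1) h2])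
      refine ⟨Function.update u j x0, Function.update v j y0, fun x y g1 g2 g3 g4 g5 => ?_⟩
      by_cases hd : y ≤ y0 + b j
      · refine ⟨j, Finset.mem_insert_self _ _, ?_⟩
        simp only [Function.update_self]
        exact ⟨not_lt.1 fun k => g5 ⟨k, by linarith⟩, by linarith [not_lt.1 hc], g3.le, hd⟩
      · exact key u v x y (g x y g1 g2 (not_le.1 hd) g4 (fun k => absurd k.1 (not_lt.2 g1)))

lemma wide {ι : Type} (a b : ι → ℝ) (ha : ∀ i, a i ≤ 1) (hb : ∀ i, 0 < b i ∧ b i ≤ 1)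
    (j : ι) (hj : a j = 1) (hs : HasSum (fun i => a i * b i) 3) :
    ∃ u v : ι → ℝ, ∀ x y : ℝ, 0 ≤ x → x ≤ 1 → 0 ≤ y → y ≤ 1 →
      ∃ i, u i ≤ x ∧ x ≤ u i + a i ∧ v i ≤ y ∧ y ≤ v i + b i := by
  classical
  have h1 : ∀ᶠ S in (Filter.atTop : Filter (Finset ι)), 3 - b j < ∑ i ∈ S, a i * b i :=
    (Filter.Tendsto.eventually hs (lt_mem_nhds (by linarith [(hb j).1])))
  obtain ⟨S, hS, hS2⟩ := (h1.and (Filter.eventually_ge_atTop {j})).exists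
  have hjS : j ∈ S := hS2 (Finset.mem_singleton_self j)
  have h2 := Finset.add_sum_erase S (fun i => a i * b i) hjS
  obtain ⟨u, v, g⟩ := shelf a b ha (fun i => (hb i).1.le) (S.erase j) 0 (b j) 1 zero_le_one
    zero_le_one (fun i _ => (hb i).2) (by simp only [hj] at h2; linarith)
  refine ⟨Function.update u j 0, Function.update v j 0, fun x y g1 g2 g3 g4 => ?_⟩
  by_cases hd : y ≤ b j
  · refine ⟨j, ?_⟩
    simp only [Function.update_self]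
    exact ⟨g1, by linarith, g3, by linarith⟩
  · obtain ⟨i, hi, k⟩ := g x y g1 g2 (not_le.1 hd) g4 (fun k => absurd k.1 (not_lt.2 g1))
    exact ⟨i, by simpa [Function.update_of_ne (Finset.ne_of_mem_erase hi)] using k⟩

theorem result (ι : Type) (a b : ι → ℝ) (ha : ∀ i, 0 < a i ∧ a i ≤ 1)
    (hb : ∀ i, 0 < b i ∧ b i ≤ 1) (h1 : ∃ i, a i = 1 ∨ b i = 1)
    (hs : HasSum (fun i => a i * b i) 3) :
    ∃ v : ι → ℝ × ℝ, Set.Icc (0 : ℝ) 1 ×ˢ Set.Icc (0 : ℝ) 1 ⊆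
      ⋃ i, (fun p => p + v i) '' (Set.Icc 0 (a i) ×ˢ Set.Icc 0 (b i)) := by
  have key : ∃ u v : ι → ℝ, ∀ x y : ℝ, 0 ≤ x → x ≤ 1 → 0 ≤ y → y ≤ 1 →
      ∃ i, u i ≤ x ∧ x ≤ u i + a i ∧ v i ≤ y ∧ y ≤ v i + b i := by
    obtain ⟨j, hj | hj⟩ := h1
    · exact wide a b (fun i => (ha i).2) hb j hj hs
    · obtain ⟨u, v, g⟩ := wide b a (fun i => (hb i).2) ha j hj (by simpa [mul_comm] using hs)
      refine ⟨v, u, fun x y g1 g2 g3 g4 => ?_⟩
      obtain ⟨i, k1, k2, k3, k4⟩ := g y x g3 g4 g1 g2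
      exact ⟨i, k3, k4, k1, k2⟩
  obtain ⟨u, v, g⟩ := key
  refine ⟨fun i => (u i, v i), fun p hp => ?_⟩
  obtain ⟨i, k1, k2, k3, k4⟩ := g p.1 p.2 hp.1.1 hp.1.2 hp.2.1 hp.2.2
  refine Set.mem_iUnion.2 ⟨i, (p.1 - u i, p.2 - v i), ⟨⟨by linarith, by linarith⟩,
    ⟨by linarith, by linarith⟩⟩, ?_⟩
  ext <;> simp

end Pool.Agent.Results.MP_6800d9_co.Yes
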